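import Pool.Agent.P.MP_abcfaf_gt.K.G

open Set Filter Topology

namespace Pool.Agent.P.MP_abcfaf_gt.K.Ex

noncomputable section

def C : Set (ℕ → ℕ) := {x | ∀ k, x k ≤ k}

def a (x : ℕ → ℕ) (k : ℕ) : ℝ := (x k : ℝ) / k

def f (x : ℕ → ℕ) : ℝ := limsup (a x) atTop

def G : Set ((ℕ → ℕ) × ℝ) := {p | p.1 ∈ C ∧ p.2 = f p.1}

def Ag (N : ℕ) (x y : ℕ → ℕ) : Prop := ∀ k < N, y k = x k

theorem isCompact_C : IsCompact C := by
  have : C = univ.pi fun k => Iic k := by
    ext x
    simp [C]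
  rw [this]
  exact isCompact_univ_pi fun k => (finite_Iic k).isCompact

theorem a_mem {x : ℕ → ℕ} (hx : x ∈ C) (k : ℕ) : a x k ∈ Icc (0 : ℝ) 1 :=
  ⟨by unfold a; positivity, div_le_one_of_le₀ (Nat.cast_le.mpr (hx k)) (Nat.cast_nonneg k)⟩

theorem bd {x : ℕ → ℕ} (hx : x ∈ C) : IsBoundedUnder (· ≤ ·) atTop (a x) :=
  isBoundedUnder_of ⟨1, fun k => (a_mem hx k).2⟩

theorem cbd {x : ℕ → ℕ} (hx : x ∈ C) : IsCoboundedUnder (· ≤ ·) atTop (a x) :=
  isCoboundedUnder_le_of_le atTop fun k => (a_mem hx k).1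

theorem f_mem {x : ℕ → ℕ} (hx : x ∈ C) : f x ∈ Icc (0 : ℝ) 1 :=
  isClosed_Icc.mem_of_mapClusterPt (MapClusterPt.limsup (cbd hx) (bd hx))
    (Eventually.of_forall (a_mem hx))

theorem ag_nhds {x : ℕ → ℕ} {U : Set (ℕ → ℕ)} (hU : U ∈ 𝓝 x) : ∃ N, ∀ y, Ag N x y → y ∈ U := by
  rw [nhds_pi, Filter.mem_pi] at hU
  obtain ⟨I, hI, t, ht, hs⟩ := hU
  obtain ⟨N, hN⟩ := hI.bddAbove
  refine ⟨N + 1, fun y hy => hs fun i hi => ?_⟩
  rw [hy i (Nat.lt_succ_of_le (hN hi))]
  exact mem_of_mem_nhds (ht i)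

theorem isOpen_ag (N : ℕ) (x : ℕ → ℕ) : IsOpen {y | Ag N x y} := by
  have : {y | Ag N x y} = (Iio N).pi fun k => {x k} := by
    ext y
    simp [Ag]
  rw [this]
  exact isOpen_set_pi (finite_Iio N) fun _ _ => isOpen_discrete _

/-- The graph meets every closed set whose projection contains a cylinder. -/
theorem key {F : Set ((ℕ → ℕ) × ℝ)} (hF : IsClosed F) {x₀ : ℕ → ℕ} (h₀ : x₀ ∈ C) (N : ℕ)
    (h : ∀ x ∈ C, Ag N x₀ x → ∃ y ∈ Icc (0 : ℝ) 1, (x, y) ∈ F) :
    ∃ x ∈ C, Ag N x₀ x ∧ (x, f x) ∈ F := by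
  choose! Y hY hYF using h
  let z : ℕ → ℕ → ℕ := fun n => Nat.rec x₀
    (fun k w => if k < N then w else Function.update w k ⌊k * Y w⌋₊) n
  have hz : ∀ k, z (k + 1) = if k < N then z k else Function.update (z k) k ⌊k * Y (z k)⌋₊ :=
    fun k => rfl
  have hzC : ∀ n, z n ∈ C ∧ Ag N x₀ (z n) := by
    intro n
    induction n with
    | zero => exact ⟨h₀, fun _ _ => rfl⟩
    | succ k ih =>
      rw [hz]
      split_ifs with hk
      · exact ih
      · refine ⟨fun i => ?_, fun i hi => ?_⟩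
        · by_cases hi : i = k
          · subst hi
            rw [Function.update_self]
            refine Nat.floor_le_of_le ?_
            exact mul_le_of_le_one_right (Nat.cast_nonneg _) (hY _ ih.1 ih.2).2
          · rw [Function.update_of_ne hi]
            exact ih.1 i
        · rw [Function.update_of_ne (by omega)]
          exact ih.2 i hi
  let x : ℕ → ℕ := fun k => z (k + 1) k
  have hx : ∀ k n, k < n → z n k = x k := by
    intro k n hn
    induction n, hn using Nat.le_induction with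
    | base => rfl
    | succ n hn ih =>
      rw [hz]
      split_ifs
      · exact ih
      · rw [Function.update_of_ne (by omega)]
        exact ih
  have hxC : x ∈ C := fun k => (hzC (k + 1)).1 k
  have hlim : Tendsto z atTop (𝓝 x) := tendsto_pi_nhds.mpr fun k =>
    tendsto_const_nhds.congr' ((eventually_gt_atTop k).mono fun n hn => (hx k n hn).symm)
  have hd : Tendsto (fun k => Y (z k) - a x k) atTop (𝓝 0) := by
    refine squeeze_zero_norm' ?_ tendsto_one_div_atTop_nhds_zero_nat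
    filter_upwards [eventually_ge_atTop N, eventually_gt_atTop 0] with k h1 h2
    have h3 : x k = ⌊k * Y (z k)⌋₊ := by
      simp only [x]
      rw [hz, if_neg (by omega), Function.update_self]
    have h4 : (0 : ℝ) < k := Nat.cast_pos.mpr h2
    have h5 : 0 ≤ k * Y (z k) := mul_nonneg h4.le (hY _ (hzC k).1 (hzC k).2).1
    have h6 := Nat.floor_le h5
    have h7 := Nat.lt_floor_add_one (k * Y (z k))
    have h8 : Y (z k) - a x k = (k * Y (z k) - ⌊k * Y (z k)⌋₊) / k := by
      rw [a, h3]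
      field_simp
    rw [h8, Real.norm_eq_abs, abs_of_nonneg (div_nonneg (by linarith) h4.le)]
    exact div_le_div_of_nonneg_right (by linarith) h4.le
  obtain ⟨φ, hφ, h1⟩ := (MapClusterPt.limsup (cbd hxC) (bd hxC)).tendsto_subseq
  refine ⟨x, hxC, fun k hk => (hzC (k + 1)).2 k hk, hF.mem_of_tendsto
    (f := fun k => (z (φ k), Y (z (φ k)))) (b := atTop)
    ((hlim.comp hφ.tendsto_atTop).prodMk_nhds ?_)
    (Eventually.of_forall fun k => hYF _ (hzC _).1 (hzC _).2)⟩
  have h2 := (hd.comp hφ.tendsto_atTop).add h1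
  simpa [f, Function.comp_def] using h2

theorem onto {x₀ : ℕ → ℕ} (h₀ : x₀ ∈ C) (N : ℕ) {y : ℝ} (hy : y ∈ Icc (0 : ℝ) 1) :
    ∃ x ∈ C, Ag N x₀ x ∧ f x = y := by
  obtain ⟨x, h1, h2, h3⟩ := key (F := {p | p.2 = y}) (isClosed_eq continuous_snd continuous_const)
    h₀ N fun x _ _ => ⟨y, hy, rfl⟩
  exact ⟨x, h1, h2, h3⟩

/-- The projection of the graph. -/
def e : G ≃ C where
  toFun p := ⟨p.1.1, p.2.1⟩
  invFun x := ⟨(x, f x), x.2, rfl⟩
  left_inv p := Subtype.ext (Prod.ext rfl p.2.2.symm)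
  right_inv _ := rfl

theorem cont_e : Continuous e := (continuous_fst.comp continuous_subtype_val).subtype_mk _

/-- every subcylinder of the cylinder `(x, N)` meets the projection of `E` -/
def Den (E : Set G) (x : ℕ → ℕ) (N : ℕ) : Prop :=
  ∀ y ∈ C, Ag N x y → ∀ M, ∃ p ∈ E, Ag M y p.1.1

theorem den_of_open {E : Set G} (hE : IsOpen E) {p : G} (hp : p ∈ E) : ∃ N, Den E p.1.1 N := by
  obtain ⟨U, hU, hs⟩ := (mem_nhds_subtype _ _ _).mp (hE.mem_nhds hp)
  obtain ⟨V, hV, W, hW, hVW⟩ := mem_nhds_prod_iff.mp hU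
  obtain ⟨N, hN⟩ := ag_nhds hV
  refine ⟨N, fun y hy h1 M => ?_⟩
  obtain ⟨x, h2, h3, h4⟩ := onto hy (max M N) (f_mem p.2.1)
  refine ⟨⟨(x, f x), h2, rfl⟩, hs (hVW ⟨hN x fun k hk => ?_, ?_⟩),
    fun k hk => h3 k (lt_max_of_lt_left hk)⟩
  · exact (h3 k (lt_max_of_lt_right hk)).trans (h1 k hk)
  · change f x ∈ W
    rw [h4, ← p.2.2]
    exact mem_of_mem_nhds hW

theorem fib {E : Set G} {x : ℕ → ℕ} (h : ∀ M, ∃ p ∈ E, Ag M x p.1.1) :
    ∃ y ∈ Icc (0 : ℝ) 1, (x, y) ∈ closure ((↑) '' E : Set ((ℕ → ℕ) × ℝ)) := by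
  choose p h1 h2 using h
  obtain ⟨y, hy, φ, hφ, h3⟩ := isCompact_Icc.tendsto_subseq
    (x := fun M => (p M).1.2) fun M => (p M).2.2 ▸ f_mem (p M).2.1
  refine ⟨y, hy, mem_closure_of_tendsto (f := fun k => (p (φ k)).1) (b := atTop)
    (Tendsto.prodMk_nhds (tendsto_pi_nhds.mpr fun k => tendsto_const_nhds.congr' ?_) h3)
    (Eventually.of_forall fun k => ⟨_, h1 _, rfl⟩)⟩
  exact (hφ.tendsto_atTop.eventually (eventually_gt_atTop k)).mono fun n hn => (h2 _ k hn).symm

theorem not_both {E : Set G} (hE : IsClopen E) {x : ℕ → ℕ} (hx : x ∈ C) {N : ℕ}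
    (h1 : Den E x N) (h2 : Den Eᶜ x N) : False := by
  set A := closure ((↑) '' E : Set ((ℕ → ℕ) × ℝ))
  set B := closure ((↑) '' Eᶜ : Set ((ℕ → ℕ) × ℝ))
  obtain ⟨w, h3, -, h4, h5⟩ := key (F := A ∩ B) (isClosed_closure.inter isClosed_closure) hx N
    fun y hy h => by
      have hc : Continuous fun t : ℝ => (y, t) := by fun_prop
      obtain ⟨t, h6, h7⟩ := (isPreconnected_closed_iff.mp (isPreconnected_Icc (a := 0) (b := 1)))
        _ _ (isClosed_closure.preimage hc (t := A)) (isClosed_closure.preimage hc (t := B))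
        (fun t ht => by
          choose p k1 k2 k3 using fun M => onto hy M ht
          have k4 : (y, t) ∈ closure (((↑) '' E : Set ((ℕ → ℕ) × ℝ)) ∪ (↑) '' Eᶜ) := by
            refine mem_closure_of_tendsto (f := fun M => (p M, f (p M))) (b := atTop)
              (Tendsto.prodMk_nhds (tendsto_pi_nhds.mpr fun k => tendsto_const_nhds.congr'
                ((eventually_gt_atTop k).mono fun n hn => (k2 _ k hn).symm))
                (by simpa only [k3] using tendsto_const_nhds))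
              (Eventually.of_forall fun M => ?_)
            rw [← image_union, union_compl_self]
            exact ⟨⟨_, k1 M, rfl⟩, trivial, rfl⟩
          rwa [closure_union] at k4)
        (by obtain ⟨t, k1, k2⟩ := fib (h1 y hy h); exact ⟨t, k1, k2⟩)
        (by obtain ⟨t, k1, k2⟩ := fib (h2 y hy h); exact ⟨t, k1, k2⟩)
      exact ⟨t, h6, h7⟩
  have h6 : (⟨(w, f w), h3, rfl⟩ : G) ∈ closure E := closure_subtype.mpr h4
  have h7 : (⟨(w, f w), h3, rfl⟩ : G) ∈ closure Eᶜ := closure_subtype.mpr h5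
  rw [hE.isClosed.closure_eq] at h6
  rw [hE.compl.isClosed.closure_eq] at h7
  exact h7 h6

theorem open_image {E : Set G} (hE : IsClopen E) : IsOpen (e '' E) := by
  rw [isOpen_iff_mem_nhds]
  rintro _ ⟨p, hp, rfl⟩
  obtain ⟨N, hN⟩ := den_of_open hE.isOpen hp
  refine mem_of_superset (((isOpen_ag N p.1.1).preimage continuous_subtype_val).mem_nhds
    fun _ _ => rfl) fun x hx => ⟨e.symm x, ?_, e.apply_symm_apply x⟩
  by_contra hq
  obtain ⟨M, hM⟩ := den_of_open hE.compl.isOpen hq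
  refine not_both hE x.2 (N := max M N) (fun y hy h => hN y hy fun k hk => ?_)
    fun y hy h => hM y hy fun k hk => h k (lt_max_of_lt_left hk)
  exact (h k (lt_max_of_lt_right hk)).trans (hx k hk)

theorem clopen_image (E : Set G) (hE : IsClopen E) : IsClopen (e '' E) :=
  ⟨by rw [← isOpen_compl_iff, ← e.image_compl]; exact open_image hE.compl, open_image hE⟩

theorem zero_mem : (fun _ => 0) ∈ C := fun _ => Nat.zero_le _

theorem kp : KP G := by
  have : CompactSpace C := isCompact_iff_compactSpace.mp isCompact_C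
  have : Nonempty G := ⟨e.symm ⟨_, zero_mem⟩⟩
  exact kp_of_bij e cont_e clopen_image

theorem tsep : TotallySeparatedSpace G := by
  refine totallySeparatedSpace_iff_exists_isClopen.mpr fun p q h => ?_
  have h1 : ∃ k, p.1.1 k ≠ q.1.1 k := by
    by_contra h2
    push Not at h2
    exact h (e.injective (Subtype.ext (funext h2)))
  obtain ⟨k, hk⟩ := h1
  have hc : Continuous fun r : G => r.1.1 k :=
    (continuous_apply k).comp (continuous_fst.comp continuous_subtype_val)
  exact ⟨_, (isClopen_discrete {p.1.1 k}).preimage hc, rfl, hk.symm⟩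

theorem not_compact : ¬ CompactSpace G := by
  intro h
  have hc := (isCompact_iff_compactSpace.mpr h).isClosed
  have key2 : ∀ t ∈ Icc (0 : ℝ) 1, t = f fun _ => 0 := by
    intro t ht
    choose p k1 k2 k3 using fun M => onto zero_mem M ht
    exact (hc.mem_of_tendsto (f := fun M => (p M, f (p M))) (b := atTop)
      (x := ((fun _ => 0), t))
      (Tendsto.prodMk_nhds (tendsto_pi_nhds.mpr fun k => tendsto_const_nhds.congr'
        ((eventually_gt_atTop k).mono fun n hn => (k2 _ k hn).symm))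
        (by simpa only [k3] using tendsto_const_nhds))
      (Eventually.of_forall fun M => ⟨k1 M, rfl⟩)).2
  exact zero_ne_one ((key2 0 (by simp)).trans (key2 1 (by simp)).symm)

/-- The lexicographic tournament. -/
def lex : Tour G where
  b p q := ∃ k, Ag k p.1.1 q.1.1 ∧ p.1.1 k < q.1.1 k
  tot p q h := by
    classical
    have h1 : ∃ k, p.1.1 k ≠ q.1.1 k := by
      by_contra h2
      push Not at h2
      exact h (e.injective (Subtype.ext (funext h2)))
    have h2 : ∀ i < Nat.find h1, p.1.1 i = q.1.1 i := fun i hi => not_not.mp (Nat.find_min h1 hi)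
    rcases lt_or_gt_of_ne (Nat.find_spec h1) with h3 | h3
    · exact Or.inl ⟨_, fun i hi => (h2 i hi).symm, h3⟩
    · exact Or.inr ⟨_, h2, h3⟩
  asym p q := by
    rintro ⟨k, h1, h2⟩ ⟨l, h3, h4⟩
    rcases lt_trichotomy k l with h | rfl | h
    · exact h2.ne (h3 k h)
    · exact h2.asymm h4
    · exact h4.ne (h1 l h)
  opn p q := by
    rintro ⟨k, h1, h2⟩
    have hc : Continuous fun r : G => r.1.1 := continuous_fst.comp continuous_subtype_val
    refine ⟨_, _, (isOpen_ag (k + 1) p.1.1).preimage hc, (isOpen_ag (k + 1) q.1.1).preimage hc,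
      fun _ _ => rfl, fun _ _ => rfl, fun p' hp q' hq => ⟨k, fun i hi => ?_, ?_⟩⟩
    · exact (hq i (by omega)).trans ((h1 i hi).trans (hp i (by omega)).symm)
    · exact (hp k (by omega)).trans_lt (h2.trans_eq (hq k (by omega)).symm)

def F (m j : ℕ) : Set ((ℕ → ℕ) × ℝ) :=
  (C ×ˢ Icc 0 1) ∩ ((⋂ k ∈ Ici j, {p | a p.1 k ≤ p.2 + 1 / (m + 1)}) ∩
    ⋃ k ∈ Icc m j, {p | p.2 - 1 / (m + 1) ≤ a p.1 k})

theorem isCompact_F (m j : ℕ) : IsCompact (F m j) := by
  have hc : ∀ k, Continuous fun p : (ℕ → ℕ) × ℝ => a p.1 k := fun k =>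
    (continuous_of_discreteTopology (f := fun n : ℕ => (n : ℝ) / k)).comp
      ((continuous_apply k).comp continuous_fst)
  exact (isCompact_C.prod isCompact_Icc).inter_right
    ((isClosed_biInter fun k _ => isClosed_le (hc k) (by fun_prop)).inter
      ((finite_Icc m j).isClosed_biUnion fun k _ => isClosed_le (by fun_prop) (hc k)))

theorem G_eq : ⋂ m, ⋃ j, F m j = G := by
  ext ⟨x, y⟩
  simp only [F, mem_iInter, mem_iUnion, mem_inter_iff, mem_prod, mem_ofPred_eq, G]
  constructor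
  · intro h
    obtain ⟨_, ⟨hx, -⟩, -⟩ := h 0
    refine ⟨hx, le_antisymm (le_of_forall_pos_le_add fun ε hε => ?_)
      (le_of_forall_pos_le_add fun ε hε => ?_)⟩
    · refine sub_le_iff_le_add.mp (le_limsup_of_frequently_le (frequently_atTop.mpr fun n => ?_)
        (bd hx))
      obtain ⟨m, h1, h2⟩ := ((tendsto_one_div_add_atTop_nhds_zero_nat (𝕜 := ℝ)).eventually
        (gt_mem_nhds hε) |>.and (eventually_ge_atTop n)).exists
      obtain ⟨j, -, -, k, h3, h4⟩ := h m
      exact ⟨k, h2.trans h3.1, by linarith⟩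
    · obtain ⟨m, h1⟩ := ((tendsto_one_div_add_atTop_nhds_zero_nat (𝕜 := ℝ)).eventually
        (gt_mem_nhds hε)).exists
      obtain ⟨j, -, h3, -⟩ := h m
      exact limsup_le_of_le (cbd hx) (eventually_atTop.mpr ⟨j, fun k hk => by
        linarith [h3 k hk]⟩)
  · rintro ⟨hx, rfl⟩ m
    have h0 : (0 : ℝ) < 1 / (m + 1) := Nat.one_div_pos_of_nat
    obtain ⟨j, hj⟩ := eventually_atTop.mp
      (eventually_lt_of_limsup_lt (lt_add_of_pos_right (f x) h0) (bd hx))
    obtain ⟨k, h1, h2⟩ := frequently_atTop.mp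
      (frequently_lt_of_lt_limsup (cbd hx) (sub_lt_self (f x) h0)) m
    exact ⟨max j k, ⟨hx, f_mem hx⟩, fun i hi => (hj i ((le_max_left _ _).trans hi)).le,
      k, ⟨h1, le_max_right _ _⟩, h2.le⟩

end

end Pool.Agent.P.MP_abcfaf_gt.K.Ex
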