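import Pool.Agent.P.MP_abcfaf_gt.Main

open Set Filter Topology

namespace Pool.Agent.P.MP_abcfaf_gt.K

universe u v

variable {X : Type u} [TopologicalSpace X]

theorem sel_of_tour (T : Tour X) : ∃ φ : Pair X → X, IsWeakSel φ ∧ ContSel φ := by
  have hex : ∀ s : Pair X, ∃ y, y ∈ s.1 ∧ ∃ x ∈ s.1, T.b x y := by
    rintro ⟨s, a, b, h, rfl⟩
    rcases T.tot a b h with h1 | h1
    · exact ⟨b, by simp, a, by simp, h1⟩
    · exact ⟨a, by simp, b, by simp, h1⟩
  choose φ hφ using hex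
  have key : ∀ a b (h : a ≠ b), T.b a b → φ (pr a b h) = b := by
    intro a b h hb
    obtain ⟨h1, x, hx, h2⟩ := hφ (pr a b h)
    rcases h1 with h1 | h1
    · exfalso
      rw [h1] at h2
      rcases hx with rfl | hx
      · exact T.irr _ h2
      · have : x = b := hx
        subst this
        exact T.asym _ _ hb h2
    · exact h1
  refine ⟨φ, fun s => (hφ s).1, fun a b h W hW hm => ?_⟩
  rcases T.tot a b h with h1 | h1
  · obtain ⟨U, V, hU, hV, hx, hy, H⟩ := T.opn a b h1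
    rw [key a b h h1] at hm
    refine ⟨U, V ∩ W, hU, hV.inter hW, hx, ⟨hy, hm⟩, fun a' ha b' hb h' => ?_⟩
    rw [key a' b' h' (H a' ha b' hb.1)]
    exact hb.2
  · obtain ⟨U, V, hU, hV, hx, hy, H⟩ := T.opn b a h1
    rw [pr_comm a b h, key b a h.symm h1] at hm
    refine ⟨V ∩ W, U, hV.inter hW, hU, ⟨hy, hm⟩, hx, fun a' ha b' hb h' => ?_⟩
    rw [pr_comm a' b' h', key b' a' h'.symm (H b' hb a' ha.1)]
    exact ha.2

theorem king_of_kp [T2Space X] (hK : KP X) : KingSpace X := by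
  intro φ h1 h2
  have hm : ∀ a b (h : a ≠ b), φ (pr a b h) = a ∨ φ (pr a b h) = b := fun a b h => h1 (pr a b h)
  let T : Tour X := ⟨fun a b => ∃ h : a ≠ b, φ (pr a b h) = b, by
    intro x y h
    rcases hm x y h with h3 | h3
    · exact Or.inr ⟨h.symm, by rw [← pr_comm x y h]; exact h3⟩
    · exact Or.inl ⟨h, h3⟩, by
    rintro x y ⟨h, h3⟩ ⟨h', h4⟩
    rw [pr_comm x y h] at h3
    exact h (h4.symm.trans h3), by
    rintro x y ⟨h, h3⟩
    obtain ⟨A, B, hA, hB, hx, hy, hAB⟩ := t2_separation h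
    obtain ⟨U, V, hU, hV, hxU, hyV, H⟩ := h2 x y h B hB (by rw [h3]; exact hy)
    refine ⟨U ∩ A, V ∩ B, hU.inter hA, hV.inter hB, ⟨hxU, hx⟩, ⟨hyV, hy⟩, ?_⟩
    intro x' hx' y' hy'
    have hne : x' ≠ y' := by
      rintro rfl
      exact Set.disjoint_left.1 hAB hx'.2 hy'.2
    refine ⟨hne, ?_⟩
    rcases hm x' y' hne with h5 | h5
    · have := H x' hx'.1 y' hy'.1 hne
      rw [h5] at this
      exact absurd this (Set.disjoint_left.1 hAB hx'.2)
    · exact h5⟩
  exact hK T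

theorem le_iff (T : Tour X) {a b : X} : (a = b ∨ T.b a b) ↔ ¬ T.b b a := by
  constructor
  · rintro (rfl | h)
    · exact T.irr _
    · exact T.asym _ _ h
  · intro h
    by_cases hab : a = b
    · exact Or.inl hab
    · exact Or.inr (T.of_not (Ne.symm hab) h)

theorem isOpen_b (T : Tour X) : IsOpen {p : X × X | T.b p.1 p.2} := by
  rw [isOpen_iff_mem_nhds]
  rintro ⟨x, y⟩ h
  obtain ⟨U, V, hU, hV, hx, hy, H⟩ := T.opn x y h
  exact mem_of_superset (prod_mem_nhds (hU.mem_nhds hx) (hV.mem_nhds hy))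
    fun p hp => H _ hp.1 _ hp.2

theorem landau (T : Tour X) (s : Finset X) (hs : s.Nonempty) :
    ∃ z, ∀ x ∈ s, ∃ y, ¬ T.b y z ∧ ¬ T.b x y := by
  classical
  obtain ⟨z, hz, hm⟩ := s.exists_max_image (fun z => (s.filter fun y => T.b z y).card) hs
  refine ⟨z, fun x hx => ?_⟩
  by_contra hno
  push Not at hno
  have h1 : T.b x z := hno z (T.irr z)
  have h2 : s.filter (fun y => T.b z y) ⊂ s.filter fun y => T.b x y := by
    refine Finset.ssubset_iff_subset_ne.mpr ⟨fun y hy => ?_, fun h => ?_⟩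
    · rw [Finset.mem_filter] at hy ⊢
      exact ⟨hy.1, hno y (T.asym _ _ hy.2)⟩
    · have : z ∈ s.filter fun y => T.b x y := Finset.mem_filter.mpr ⟨hz, h1⟩
      rw [← h] at this
      exact T.irr z (Finset.mem_filter.mp this).2
  exact absurd (hm x hx) (not_le.mpr (Finset.card_lt_card h2))

theorem kp_of_compact [CompactSpace X] [Nonempty X] : KP X := by
  intro T
  have hc : ∀ x, IsClosed {z | ∃ y, ¬ T.b y z ∧ ¬ T.b x y} := by
    intro x
    have h1 : IsClosed {p : X × X | ¬ T.b p.2 p.1 ∧ ¬ T.b x p.2} :=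
      ((isOpen_b T).preimage continuous_swap).isClosed_compl.inter
        ((T.isOpen_out x).preimage continuous_snd).isClosed_compl
    convert isClosedMap_fst_of_compactSpace _ h1 using 1
    ext z
    simp
  obtain ⟨z, -, hz⟩ := isCompact_univ.inter_iInter_nonempty _ hc fun s => by
    rcases s.eq_empty_or_nonempty with rfl | hs
    · simp
    · obtain ⟨z, hz⟩ := landau T s hs
      exact ⟨z, trivial, mem_iInter₂.mpr hz⟩
  refine ⟨z, fun x => ?_⟩
  obtain ⟨y, h1, h2⟩ := mem_iInter.mp hz x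
  exact ⟨y, (le_iff T).mpr h1, (le_iff T).mpr h2⟩

/-- Sequences of nonempty clopen sets have cluster points. -/
def LF (X : Type u) [TopologicalSpace X] : Prop :=
  ∀ D : ℕ → Set X, (∀ n, IsClopen (D n)) → (∀ n, (D n).Nonempty) → ∃ p, Clus (fun _ => True) D p

theorem lf_of_fin (h : ∀ f : X → Set ℕ, IsLocallyConstant f → (range f).Finite) : LF X := by
  intro D hc hne
  by_contra hno
  push Not at hno
  have hno' : ∀ x, ∃ O ∈ 𝓝 x, ∃ N, ∀ n, N ≤ n → ¬ (O ∩ D n).Nonempty := by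
    intro x
    have h1 := hno x
    simp only [Clus, not_forall, not_frequently, eventually_atTop, true_and] at h1
    obtain ⟨O, hO, N, hN⟩ := h1
    exact ⟨O, hO, N, hN⟩
  have hl : IsLocallyConstant (fun x => {n | x ∈ D n}) := by
    rw [IsLocallyConstant.iff_eventually_eq]
    intro x
    obtain ⟨O, hO, N, hN⟩ := hno' x
    have h2 : ∀ᶠ y in 𝓝 x, ∀ n ∈ Finset.range N, (y ∈ D n ↔ x ∈ D n) := by
      rw [eventually_all_finset]
      intro n _
      by_cases hx : x ∈ D n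
      · filter_upwards [(hc n).isOpen.mem_nhds hx] with y hy
        simp [hx, hy]
      · filter_upwards [(hc n).compl.isOpen.mem_nhds hx] with y hy
        have : y ∉ D n := hy
        simp [hx, this]
    filter_upwards [h2, hO] with y hy hyO
    ext n
    by_cases hn : n < N
    · exact hy n (Finset.mem_range.2 hn)
    · have := hN n (by omega)
      exact ⟨fun h4 => absurd ⟨y, hyO, h4⟩ this, fun h4 => absurd ⟨x, mem_of_mem_nhds hO, h4⟩ this⟩
  have hf : (⋃₀ range fun x => {n | x ∈ D n}).Finite := by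
    refine (h _ hl).sUnion ?_
    rintro _ ⟨x, rfl⟩
    obtain ⟨O, hO, N, hN⟩ := hno' x
    refine (finite_lt_nat N).subset fun n hn => ?_
    by_contra h1
    exact hN n (not_lt.mp h1) ⟨x, mem_of_mem_nhds hO, hn⟩
  refine infinite_univ (hf.subset fun n _ => ?_)
  obtain ⟨x, hx⟩ := hne n
  exact ⟨_, ⟨x, rfl⟩, hx⟩

/-- Membership in `A w` is jointly locally constant. -/
def JL {Y : Type v} [TopologicalSpace Y] (A : Y → Set X) : Prop :=
  ∀ w p, ∃ U ∈ 𝓝 w, ∃ V ∈ 𝓝 p, ∀ w' ∈ U, ∀ p' ∈ V, (p' ∈ A w' ↔ p ∈ A w)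

theorem JL.clopen {Y : Type v} [TopologicalSpace Y] {A : Y → Set X} (h : JL A) (w : Y) :
    IsClopen (A w) := by
  constructor
  · rw [← isOpen_compl_iff, isOpen_iff_mem_nhds]
    intro p hp
    obtain ⟨U, hU, V, hV, H⟩ := h w p
    exact mem_of_superset hV fun q hq h1 => hp ((H w (mem_of_mem_nhds hU) q hq).mp h1)
  · rw [isOpen_iff_mem_nhds]
    intro p hp
    obtain ⟨U, hU, V, hV, H⟩ := h w p
    exact mem_of_superset hV fun q hq => (H w (mem_of_mem_nhds hU) q hq).mpr hp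

theorem JL.seq {Y : Type v} [TopologicalSpace Y] {A : Y → Set X} (h : JL A) (hL : LF X)
    {u : ℕ → Y} {w : Y} (hu : Tendsto u atTop (𝓝 w)) : ∀ᶠ n in atTop, A (u n) = A w := by
  by_contra hno
  obtain ⟨φ, hφ, h1⟩ := extraction_of_frequently_atTop (not_eventually.mp hno)
  obtain ⟨p, hp⟩ := hL (fun n => symmDiff (A (u (φ n))) (A w))
    (fun n => ((h.clopen _).diff (h.clopen _)).union ((h.clopen _).diff (h.clopen _)))
    (fun n => symmDiff_nonempty.mpr (h1 n))
  obtain ⟨U, hU, V, hV, H⟩ := h w p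
  obtain ⟨n, ⟨-, q, h2, h3⟩, h4⟩ :=
    ((hp V hV).and_eventually ((hu.comp hφ.tendsto_atTop).eventually hU)).exists
  have h5 := (H _ h4 q h2).trans (H w (mem_of_mem_nhds hU) q h2).symm
  rcases h3 with h3 | h3
  · exact h3.2 (h5.mp h3.1)
  · exact h3.2 (h5.mpr h3.1)

theorem jl_tr (T : Tour X) {E : Set X} (hE : IsClopen E) : JL (T.tr E) := by
  intro w p
  by_cases hw : w ∈ E
  · exact ⟨E, hE.isOpen.mem_nhds hw, univ, univ_mem, fun w' hw' p' _ =>
      ⟨fun h => absurd hw' h.2.1, fun h => absurd hw h.2.1⟩⟩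
  by_cases hp : p ∈ E
  · rcases T.tot w p (fun h => hw (h ▸ hp)) with h | h
    · obtain ⟨U, V, hU, hV, hx, hy, H⟩ := T.opn w p h
      exact ⟨U ∩ Eᶜ, (hU.inter hE.compl.isOpen).mem_nhds ⟨hx, hw⟩, V ∩ E,
        (hV.inter hE.isOpen).mem_nhds ⟨hy, hp⟩, fun w' hw' p' hp' =>
        ⟨fun _ => ⟨hp, hw, h⟩, fun _ => ⟨hp'.2, hw'.2, H _ hw'.1 _ hp'.1⟩⟩⟩
    · obtain ⟨U, V, hU, hV, hx, hy, H⟩ := T.opn p w h
      exact ⟨V, hV.mem_nhds hy, U, hU.mem_nhds hx, fun w' hw' p' hp' =>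
        ⟨fun h1 => absurd h1.2.2 (T.asym _ _ (H _ hp' _ hw')),
          fun h1 => absurd h1.2.2 (T.asym _ _ h)⟩⟩
  · exact ⟨univ, univ_mem, Eᶜ, hE.compl.isOpen.mem_nhds hp, fun w' _ p' hp' =>
      ⟨fun h => absurd h.1 hp', fun h => absurd h.1 hp⟩⟩

theorem lf_of_bij {Z : Type v} [TopologicalSpace Z] [CompactSpace Z] (e : X ≃ Z)
    (hc : ∀ E, IsClopen E → IsClopen (e '' E)) : LF X := by
  refine lf_of_fin fun f hf => ?_
  have h1 : IsLocallyConstant (f ∘ e.symm) := by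
    rw [IsLocallyConstant.iff_isOpen_fiber]
    intro v
    rw [preimage_comp, ← e.image_eq_preimage_symm]
    exact (hc _ (hf.isClopen_fiber v)).isOpen
  have h2 := h1.range_finite
  rwa [e.symm.surjective.range_comp] at h2

theorem kp_of_bij [FrechetUrysohnSpace X] [Nonempty X] {Z : Type v} [TopologicalSpace Z]
    [CompactSpace Z] [TotallySeparatedSpace Z] (e : X ≃ Z) (he : Continuous e)
    (hc : ∀ E, IsClopen E → IsClopen (e '' E)) : KP X := by
  intro T
  have hL := lf_of_bij e hc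
  have : Nonempty Z := e.symm.nonempty
  let S : Tour Z := ⟨fun a b => T.b (e.symm a) (e.symm b),
    fun a b h => T.tot _ _ (e.symm.injective.ne h), fun a b => T.asym _ _, fun a b h => by
      obtain ⟨E, hE, hb, ha⟩ := exists_isClopen_of_totally_separated
        (e.symm.injective.ne_iff.mp (T.ne h)).symm
      have hJ := jl_tr T (hE.preimage he)
      have hl : IsLocallyConstant (T.tr (e ⁻¹' E)) := by
        rw [IsLocallyConstant.iff_eventually_eq]
        intro w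
        by_contra hno
        obtain ⟨u, h1, h2⟩ := mem_closure_iff_seq_limit.mp
          (mem_closure_iff_frequently.mpr (not_eventually.mp hno))
        obtain ⟨n, hn⟩ := (hJ.seq hL h2).exists
        exact h1 n hn
      refine ⟨_, _, (hc _ (hl.isClopen_fiber (T.tr (e ⁻¹' E) (e.symm a)))).isOpen,
        (hc _ (hJ.clopen (e.symm a))).isOpen, ⟨e.symm a, rfl, by simp⟩,
        ⟨e.symm b, ⟨by simpa using hb, by simpa using ha, h⟩, by simp⟩, ?_⟩
      rintro _ ⟨x, hx, rfl⟩ _ ⟨y, hy, rfl⟩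
      have h3 : T.tr (e ⁻¹' E) x = _ := hx
      rw [← h3] at hy
      simpa using hy.2.2⟩
  obtain ⟨z, hz⟩ := kp_of_compact S
  refine ⟨e.symm z, fun x => ?_⟩
  obtain ⟨y, h1, h2⟩ := hz (e x)
  refine ⟨e.symm y, (le_iff T).mpr ((le_iff S).mp h1), (le_iff T).mpr ?_⟩
  simpa [S] using (le_iff S).mp h2

end Pool.Agent.P.MP_abcfaf_gt.K
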